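import Mathlib
import Pool.Agent.Q187.Exp.Luroth

set_option autoImplicit false

open Filter Topology Set

namespace Pool.Agent.Results.MP_98e33a_an.Level

/-- The asymptotic set of `x` under the map `L`, inside `[0, 1]`. -/
def AS (L : ℝ → ℝ) (x : ℝ) : Set ℝ :=
  {y ∈ Icc (0 : ℝ) 1 | Tendsto (fun n : ℕ => |L^[n] x - L^[n] y|) atTop (𝓝 0)}

/-- The set of points of `[0, 1]` whose asymptotic set has Hausdorff dimension `α`. -/
noncomputable def Theta (L : ℝ → ℝ) (α : ENNReal) : Set ℝ :=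
  {x ∈ Icc (0 : ℝ) 1 | dimH (AS L x) = α}

/-- For the Lüroth map `L` (with an arbitrary value at the point `1`) the set `Θ(L; 1/2)` has
Hausdorff dimension one. -/
theorem result (L : ℝ → ℝ) (h0 : L 0 = 0)
    (hL : ∀ n : ℕ, 1 ≤ n → ∀ x ∈ Ico (1 / ((n : ℝ) + 1)) (1 / (n : ℝ)),
      L x = n * (n + 1) * x - n) :
    dimH (Theta L (1 / 2)) = 1 :=
  Pool.Agent.Q187.Exp.dimH_level (Pool.Agent.Q187.Exp.Luroth.sys h0 hL)
    (X := Icc (0 : ℝ) 1) Ioo_subset_Icc_self subset_rfl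

end Pool.Agent.Results.MP_98e33a_an.Level
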